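import Pool.Agent.TH65.B.Main

/-!
# A finitely generated torsion group with `0 < β₁⁽²⁾ < 1`, no finite quotients and no infinite
amenable subgroups

The group is the limit of a sequence of hyperbolic quotients of the free group of rank two, each
obtained from the previous one by killing a large prime power of an element without roots. The
property of rapid decay holds with a polynomial bound which is uniform along the sequence, so an
infinite amenable subgroup would have polynomial growth of bounded degree; but any two elements
which do not commute generate a subgroup of exponential growth at some stage, and a large finite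
part of it is kept at all later stages.
-/

set_option autoImplicit false

namespace Pool.Agent.Results.MP_42532b_al.TorsionSmallBetti

open Pool.Agent.H919R3.Stmt (l2Betti)
open Pool.Agent.TH65.B (IsAmenable)

/-- There is a finitely generated torsion group `G` without proper subgroups of finite index, in
which every amenable subgroup is finite, and whose first `ℓ²`-Betti number is positive but smaller
than `1 / [G : G₁]` for every subgroup `G₁` of finite index. -/
theorem result : ∃ (G : Type) (_ : Group G), Monoid.IsTorsion G ∧
    (∃ S : Finset G, Subgroup.closure (S : Set G) = ⊤) ∧
    (∀ G₁ : Subgroup G, G₁.FiniteIndex → G₁ = ⊤) ∧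
    (∀ A : Subgroup G, IsAmenable A → Finite A) ∧
    ∀ S : Finset G, Subgroup.closure (S : Set G) = ⊤ →
      0 < l2Betti S ∧ ∀ G₁ : Subgroup G, G₁.FiniteIndex → l2Betti S < 1 / (G₁.index : ℝ) := by
  obtain ⟨G, _, htor, hS, hb, hA, hfi⟩ := Pool.Agent.TH65.B.main
  refine ⟨G, inferInstance, htor, hS, hfi, hA, fun S hSg => ⟨(hb S hSg).1, fun G₁ hG₁ => ?_⟩⟩
  rw [hfi G₁ hG₁, Subgroup.index_top, Nat.cast_one, div_one]
  exact (hb S hSg).2

end Pool.Agent.Results.MP_42532b_al.TorsionSmallBetti
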